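import Pool.Agent.H301R2.SSE.Forms
import Pool.Agent.TH519.HS.Sk

/-!
# Skew-symmetric matrices of logarithms whose multiples are matrices of logarithms

The lemmas on isotropic families are copied from `Pool.Agent.TH519.HS.SkF` (which has larger
imports).
-/

set_option autoImplicit false

namespace Pool.Agent.K1H90.RY

open Pool.Agent.TH519.HS Pool.Agent.H301R2.SSE

def tq {F : Type} [Field F] (q : Fin 4 → F) : Fin 4 → Fin 6 → F :=
  ![![q 1, q 2, q 3, 0, 0, 0], ![-q 0, 0, 0, q 2, q 3, 0], ![0, -q 0, 0, -q 1, 0, q 3],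
    ![0, 0, -q 0, 0, -q 1, -q 2]]

theorem sk_tq {F : Type} [Field F] (x : Fin 6 → F) (q : Fin 4 → F) (i : Fin 4) :
    (sk x).mulVec q i = ∑ j, x j * tq q i j := by
  fin_cases i <;>
    simp [sk, tq, Matrix.mulVec, dotProduct, Fin.sum_univ_four, Fin.sum_univ_six]

theorem tq_map {K : Type} [Field K] (f : K →+* ℂ) (q : Fin 4 → K) (i : Fin 4) (j : Fin 6) :
    f (tq q i j) = tq (fun i => f (q i)) i j := by
  fin_cases i <;> fin_cases j <;> simp [tq]

theorem comb_zero {K : Type} [Field K] (f : K →+* ℂ) {M : ℕ} (l : Fin M → ℂ)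
    (b : Fin 6 → Fin M → K) (q : Fin 4 → K) (h : ∀ k, (sk fun i => b i k).mulVec q = 0) :
    (sk fun i => ∑ k, f (b i k) * l k).mulVec (fun i => f (q i)) = 0 := by
  funext i
  rw [sk_tq]
  simp only [Finset.sum_mul]
  rw [Finset.sum_comm]
  refine Finset.sum_eq_zero fun k _ => ?_
  have h1 := congrFun (h k) i
  rw [sk_tq] at h1
  have h2 := congrArg f h1
  rw [map_sum, Pi.zero_apply, map_zero] at h2
  have h3 : ∑ j, f (b j k) * l k * tq (fun i => f (q i)) i j =
      l k * ∑ j, f (b j k * tq q i j) := by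
    rw [Finset.mul_sum]
    refine Finset.sum_congr rfl fun j _ => ?_
    rw [map_mul, tq_map]
    ring
  rw [h3, h2, mul_zero]

theorem st_comb {K : Type} [Field K] (f : K →+* ℂ) {M : ℕ} (l : Fin M → ℂ)
    (b : Fin 6 → Fin M → K) : st (fun i => ∑ k, f (b i k) * l k) =
      fun i => ∑ k, f (st (fun i => b i k) i) * l k := by
  funext i
  fin_cases i <;> simp [st]

theorem alt_of_lines {K : Type} [Field K] (h2 : (2 : K) ≠ 0) (f : K →+* ℂ) {M : ℕ}
    (l : Fin M → ℂ) (b : Fin 6 → Fin M → K)
    (h : ∀ k k', pf (fun i => b i k) (fun i => b i k') = 0) :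
    ∃ q : Fin 4 → K, q ≠ 0 ∧
      ((sk fun i => ∑ k, f (b i k) * l k).mulVec (fun i => f (q i)) = 0 ∨
      (sk (st fun i => ∑ k, f (b i k) * l k)).mulVec (fun i => f (q i)) = 0) := by
  obtain ⟨q, hq, h1 | h1⟩ := lines h2 (fun k i => b i k) h
  · exact ⟨q, hq, Or.inl (comb_zero f l b q h1)⟩
  · refine ⟨q, hq, Or.inr ?_⟩
    rw [st_comb]
    exact comb_zero f l (fun i k => st (fun i => b i k) i) q h1

/-- Roy's alternative over the field `K` -/
def Roy (K : Type) [Field K] [Algebra K ℂ] (M : Matrix (Fin 4) (Fin 4) ℂ) : Prop :=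
  (¬ LinearIndependent K (fun i : Fin 4 => (M i : Fin 4 → ℂ))) ∨
    ∃ v : Fin 4 → K, v ≠ 0 ∧ (fun i => algebraMap K ℂ (v i)) ∈ LinearMap.range M.mulVecLin

theorem wedge3 (x : Fin 6 → ℂ) (q : Fin 4 → ℂ) (h : (sk (st x)).mulVec q = 0) (i r s : Fin 4) :
    q i * sk x r s + q r * sk x s i + q s * sk x i r = 0 := by
  have h0 := congrFun h 0
  have h1 := congrFun h 1
  have h2 := congrFun h 2
  have h3 := congrFun h 3
  simp [sk, st, Matrix.mulVec, dotProduct, Fin.sum_univ_four] at h0 h1 h2 h3
  fin_cases i <;> fin_cases r <;> fin_cases s <;> simp [sk] <;>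
    first
    | ring1
    | linear_combination h0
    | linear_combination -h0
    | linear_combination h1
    | linear_combination -h1
    | linear_combination h2
    | linear_combination -h2
    | linear_combination h3
    | linear_combination -h3

theorem roy_of_alt {K : Type} [Field K] [Algebra K ℂ] (x : Fin 6 → ℂ) (q : Fin 4 → K)
    (hq : q ≠ 0) (h : (sk x).mulVec (fun i => algebraMap K ℂ (q i)) = 0 ∨
      (sk (st x)).mulVec (fun i => algebraMap K ℂ (q i)) = 0) : Roy K (sk x) := by
  have hsk : ∀ i j, sk x i j = -sk x j i := by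
    intro i j
    have := congrFun (congrFun (sk_transpose x) j) i
    exact this
  rcases h with h | h
  · left
    intro hli
    rw [Fintype.linearIndependent_iff] at hli
    apply hq
    funext i
    refine hli q ?_ i
    funext j
    rw [Finset.sum_apply]
    have h1 := congrFun h j
    change _ = (0 : ℂ)
    rw [← neg_eq_zero]
    rw [← Finset.sum_neg_distrib]
    refine Eq.trans ?_ h1
    change _ = ∑ i, sk x j i * algebraMap K ℂ (q i)
    refine Finset.sum_congr rfl fun i _ => ?_
    rw [Pi.smul_apply, Algebra.smul_def, hsk i j]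
    ring
  · by_cases hx : ∃ r s, sk x r s ≠ 0
    · obtain ⟨r, s, hrs⟩ := hx
      right
      refine ⟨q, hq, Pi.single s (algebraMap K ℂ (q r) / sk x r s) -
        Pi.single r (algebraMap K ℂ (q s) / sk x r s), ?_⟩
      funext i
      have h1 := wedge3 x _ h i r s
      rw [Matrix.mulVecLin_apply, Matrix.mulVec_sub, Pi.sub_apply, Matrix.mulVec_single,
        Matrix.mulVec_single]
      simp only [Pi.smul_apply, Matrix.col_apply, MulOpposite.smul_eq_mul_unop,
        MulOpposite.unop_op]
      rw [hsk s i] at h1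
      field_simp
      linear_combination -h1
    · push Not at hx
      left
      intro hli
      refine hli.ne_zero 0 ?_
      funext j
      exact hx 0 j

theorem pf_of_rank (x : Fin 6 → ℂ) (h : (sk x).rank ≤ 2) : pf x x = 0 := by
  by_contra hne
  have h1 := sk_st x x
  have h2 : sk x * ((-2 / pf x x) • sk (st x)) = 1 := by
    rw [mul_smul_comm]
    have h3 : sk x * sk (st x) = (-(pf x x) / 2) • (1 : Matrix (Fin 4) (Fin 4) ℂ) := by
      have h4 : (2 : ℂ) • (sk x * sk (st x)) = -(pf x x) • (1 : Matrix (Fin 4) (Fin 4) ℂ) := by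
        rw [two_smul, h1]
      have h5 := congrArg (fun M => (1 / 2 : ℂ) • M) h4
      simp only [smul_smul] at h5
      norm_num at h5
      rw [h5, ← neg_smul]
      congr 1
      ring
    rw [h3, smul_smul]
    have h4 : -2 / pf x x * (-pf x x / 2) = 1 := by
      field_simp
    rw [h4, one_smul]
  have h3 : IsUnit (sk x) := (Matrix.isUnit_iff_isUnit_det _).2 (Matrix.isUnit_det_of_right_inverse h2)
  have h4 := Matrix.rank_of_isUnit _ h3
  rw [Fintype.card_fin] at h4
  omega

theorem sk_eta (M : Matrix (Fin 4) (Fin 4) ℂ) (h : M.transpose = -M) :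
    sk ![M 0 1, M 0 2, M 0 3, M 1 2, M 1 3, M 2 3] = M := by
  have h1 : ∀ i j, M j i = -M i j := fun i j => congrFun (congrFun h i) j
  have h2 : ∀ i, M i i = 0 := fun i => self_eq_neg.1 (h1 i i)
  ext i j
  fin_cases i <;> fin_cases j <;> simp [sk, h2]
  · exact (h1 0 1).symm
  · exact (h1 0 2).symm
  · exact (h1 1 2).symm
  · exact (h1 0 3).symm
  · exact (h1 1 3).symm
  · exact (h1 2 3).symm

/-- quadratic relations between two numbers with transcendental ratio -/
theorem quad {x y a b c : ℂ} (ha : IsAlgebraic ℚ a) (hb : IsAlgebraic ℚ b) (hc : IsAlgebraic ℚ c)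
    (hxy : ∀ s t : ℂ, IsAlgebraic ℚ s → IsAlgebraic ℚ t → s * x + t * y = 0 → s = 0 ∧ t = 0)
    (h : a * x ^ 2 + b * (x * y) + c * y ^ 2 = 0) : a = 0 ∧ b = 0 ∧ c = 0 := by
  have hy : y ≠ 0 := by
    intro h0
    exact one_ne_zero (hxy 0 1 isAlgebraic_zero isAlgebraic_one (by rw [h0]; ring)).2
  have hrat : ¬ IsAlgebraic ℚ (x / y) := by
    intro h1
    have h2 := hxy 1 (-(x / y)) isAlgebraic_one h1.neg (by field_simp; ring)
    exact one_ne_zero h2.1
  have h3 : a * (x / y) ^ 2 + b * (x / y) + c = 0 := by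
    field_simp
    linear_combination h
  have ha0 : a = 0 := by
    by_contra ha0
    apply hrat
    have h4 : (2 * a * (x / y) + b) ^ 2 = b ^ 2 - 4 * a * c := by
      linear_combination (4 * a) * h3
    have h5 : IsAlgebraic ℚ ((2 * a * (x / y) + b) ^ 2) := by
      rw [h4]
      exact (hb.pow 2).sub (((isAlgebraic_nat 4).mul ha).mul hc)
    have h6 : IsAlgebraic ℚ (2 * a * (x / y) + b) := h5.of_pow (by norm_num)
    have h7 : x / y = (2 * a * (x / y) + b - b) * (2 * a)⁻¹ := by
      field_simp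
      ring
    rw [h7]
    exact (h6.sub hb).mul ((isAlgebraic_nat 2).mul ha).inv
  rw [ha0] at h
  have h8 : b * x + c * y = 0 := by
    have h9 : y * (b * x + c * y) = 0 := by linear_combination h
    exact (mul_eq_zero.1 h9).resolve_left hy
  obtain ⟨h9, h10⟩ := hxy b c hb hc h8
  exact ⟨ha0, h9, h10⟩

/-- the forms of a relation in at most two numbers -/
theorem small {K : Type} [Field K] [Algebra K ℂ] (hK : ∀ k : K, IsAlgebraic ℚ (algebraMap K ℂ k))
    {n : ℕ} (hn : n ≤ 2) (l : Fin n → ℂ)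
    (hl : ∀ c : Fin n → ℂ, (∀ j, IsAlgebraic ℚ (c j)) → ∑ j, c j * l j = 0 → ∀ j, c j = 0)
    (b : Fin 6 → Fin n → K)
    (h : pf (fun i => ∑ k, algebraMap K ℂ (b i k) * l k)
      (fun i => ∑ k, algebraMap K ℂ (b i k) * l k) = 0) :
    ∀ k k', pf (fun i => b i k) (fun i => b i k') = 0 := by
  have hinj := (algebraMap K ℂ).injective
  have hpf : ∀ k k', algebraMap K ℂ (pf (fun i => b i k) (fun i => b i k')) =
      pf (fun i => algebraMap K ℂ (b i k)) (fun i => algebraMap K ℂ (b i k')) := by
    intro k k'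
    simp [pf]
  have halg : ∀ k k', IsAlgebraic ℚ
      (pf (fun i => algebraMap K ℂ (b i k)) (fun i => algebraMap K ℂ (b i k'))) := by
    intro k k'
    rw [← hpf]
    exact hK _
  interval_cases n
  · intro k
    exact k.elim0
  · have hl0 : l 0 ≠ 0 := by
      intro h0
      have := hl (fun _ => 1) (fun _ => isAlgebraic_one) (by simp [h0]) 0
      exact one_ne_zero this
    have h1 : pf (fun i => algebraMap K ℂ (b i 0)) (fun i => algebraMap K ℂ (b i 0)) = 0 := by
      have h2 : pf (fun i => algebraMap K ℂ (b i 0)) (fun i => algebraMap K ℂ (b i 0)) *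
          (l 0 * l 0) = 0 := by
        rw [← h]
        simp only [pf, Fin.sum_univ_one, Fin.isValue]
        ring
      exact (mul_eq_zero.1 h2).resolve_right (mul_ne_zero hl0 hl0)
    intro k k'
    have hk : k = 0 := Subsingleton.elim _ _
    have hk' : k' = 0 := Subsingleton.elim _ _
    rw [hk, hk']
    apply hinj
    rw [hpf, h1, map_zero]
  · have hxy : ∀ s t : ℂ, IsAlgebraic ℚ s → IsAlgebraic ℚ t → s * l 0 + t * l 1 = 0 →
        s = 0 ∧ t = 0 := by
      intro s t hs ht h0
      have h1 := hl ![s, t] (by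
        intro j
        fin_cases j
        · exact hs
        · exact ht) (by rw [Fin.sum_univ_two]; simpa using h0)
      exact ⟨h1 0, h1 1⟩
    have h2 := quad (halg 0 0) ((isAlgebraic_nat 2).mul (halg 0 1)) (halg 1 1) hxy (by
      rw [← h]
      simp only [pf, Fin.sum_univ_two, Fin.isValue]
      push_cast
      ring)
    have h00 := h2.1
    have h01 := (mul_eq_zero.1 h2.2.1).resolve_left (by norm_num)
    have h11 := h2.2.2
    have h10 : pf (fun i => algebraMap K ℂ (b i 1)) (fun i => algebraMap K ℂ (b i 0)) = 0 := by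
      rw [← h01]
      simp only [pf]
      ring
    intro k k'
    apply hinj
    rw [hpf, map_zero]
    fin_cases k <;> fin_cases k'
    · exact h00
    · exact h01
    · exact h10
    · exact h11

/-- **Core.** -/
theorem core {K : Type} [Field K] [Algebra K ℂ] [CharZero K]
    (hK : ∀ k : K, IsAlgebraic ℚ (algebraMap K ℂ k))
    (M : Matrix (Fin 4) (Fin 4) ℂ) (hM : M.transpose = -M) (hr : M.rank ≤ 2) (E : Set ℂ)
    (hE : ∀ i j, M i j ∈ E) (hELt : ∀ z ∈ E, z ∈ Lt)
    (hB : ∀ (n : ℕ) (l : Fin n → ℂ), (∀ j, l j ∈ E) → LinearIndependent K l →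
      ∀ c : Fin n → ℂ, (∀ j, IsAlgebraic ℚ (c j)) → ∑ j, c j * l j = 0 → ∀ j, c j = 0)
    (c : ℂ) (hc : Transcendental ℚ c) (hcM : ∀ i j, c * M i j ∈ Lt) : Roy K M := by
  classical
  set x : Fin 6 → ℂ := ![M 0 1, M 0 2, M 0 3, M 1 2, M 1 3, M 2 3] with hx
  have hsk : sk x = M := sk_eta M hM
  have hxE : ∀ i, x i ∈ E := by
    intro i
    fin_cases i <;> simp [hx, hE]
  have hcx : ∀ i, c * x i ∈ Lt := by
    intro i
    fin_cases i <;> simp [hx, hcM]
  have hpf : pf x x = 0 := pf_of_rank x (by rw [hsk]; exact hr)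
  obtain ⟨κ, a, ha, hsp, hli⟩ := exists_linearIndependent' K x
  haveI : Finite κ := Finite.of_injective a ha
  haveI : Fintype κ := Fintype.ofFinite κ
  let e := Fintype.equivFin κ
  set n := Fintype.card κ with hn
  let l : Fin n → ℂ := fun k => x (a (e.symm k))
  have hlE : ∀ k, l k ∈ E := fun k => hxE _
  have hll : LinearIndependent K l := hli.comp e.symm e.symm.injective
  have hspan : ∀ i, ∃ q : Fin n → K, x i = ∑ k, algebraMap K ℂ (q k) * l k := by
    intro i
    have h1 : x i ∈ Submodule.span K (Set.range (x ∘ a)) := by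
      rw [hsp]; exact Submodule.subset_span ⟨i, rfl⟩
    have h2 : Set.range (x ∘ a) = Set.range l := by
      ext z
      constructor
      · rintro ⟨k, rfl⟩
        exact ⟨e k, by simp [l]⟩
      · rintro ⟨k, rfl⟩
        exact ⟨e.symm k, rfl⟩
    rw [h2, Submodule.mem_span_range_iff_exists_fun] at h1
    obtain ⟨q, hq⟩ := h1
    refine ⟨q, ?_⟩
    rw [← hq]
    exact Finset.sum_congr rfl fun k _ => Algebra.smul_def _ _
  choose b hb using hspan
  have hn2 : n ≤ 2 := by
    by_contra hcon
    have h3 : 3 ≤ n := by omega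
    refine strong_six ![1, c] (fun j : Fin 3 => l (Fin.castLE h3 j)) ?_ ?_ ?_
    · intro s t hs ht h0
      have h0' : s + t * c = 0 := by simpa using h0
      have ht0 : t = 0 := by
        by_contra ht0
        apply hc
        have h4 : c = -s * t⁻¹ := by
          field_simp
          linear_combination h0'
        rw [h4]
        exact hs.neg.mul ht.inv
      refine ⟨?_, ht0⟩
      rw [ht0] at h0'
      simpa using h0'
    · exact hB 3 _ (fun j => hlE _) (hll.comp _ (Fin.castLE_injective h3))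
    · intro i j
      fin_cases i
      · simpa using hELt _ (hlE _)
      · simpa using hcx _
  have hx2 : x = fun i => ∑ k, algebraMap K ℂ (b i k) * l k := funext hb
  have h4 : ∀ k k', pf (fun i => b i k) (fun i => b i k') = 0 :=
    small hK hn2 l (hB n l hlE hll) b (by rw [← hx2]; exact hpf)
  obtain ⟨q, hq, h5⟩ := alt_of_lines (two_ne_zero) (algebraMap K ℂ) l b h4
  rw [← hx2] at h5
  rw [← hsk]
  exact roy_of_alt x q hq h5

/-- the homogeneous form of Baker's theorem -/
theorem baker_hom (n : ℕ) (l : Fin n → ℂ) (h : ∀ j, IsAlgebraic ℚ (Complex.exp (l j)))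
    (hl : LinearIndependent ℚ l) (c : Fin n → ℂ) (hc : ∀ j, IsAlgebraic ℚ (c j))
    (h0 : ∑ j, c j * l j = 0) : ∀ j, c j = 0 :=
  (Pool.Agent.H297R2.baker_inhom l h hl 0 isAlgebraic_zero c hc (by rw [zero_add]; exact h0)).2

/-- over the algebraic numbers -/
theorem main_alg (M : Matrix (Fin 4) (Fin 4) ℂ) (hM : M.transpose = -M) (hr : M.rank ≤ 2)
    (hE : ∀ i j, M i j ∈ Lt) (c : ℂ) (hc : Transcendental ℚ c) (hcM : ∀ i j, c * M i j ∈ Lt) :
    Roy QB M := by
  refine core (K := QB) (fun k => mem_QB.mp k.2) M hM hr (Lt : Set ℂ) hE (fun z hz => hz) ?_ c hc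
    hcM
  intro n l _ hl c hc h0 j
  have h1 := Fintype.linearIndependent_iff.1 hl (fun j => ⟨c j, mem_QB.mpr (hc j)⟩) (by
    rw [← h0]
    exact Finset.sum_congr rfl fun j _ => rfl) j
  exact congrArg Subtype.val h1

/-- over the rational numbers -/
theorem main_rat (M : Matrix (Fin 4) (Fin 4) ℂ) (hM : M.transpose = -M) (hr : M.rank ≤ 2)
    (hE : ∀ i j, IsAlgebraic ℚ (Complex.exp (M i j))) (c : ℂ) (hc : Transcendental ℚ c)
    (hcM : ∀ i j, c * M i j ∈ Lt) : Roy ℚ M := by
  refine core (K := ℚ) (fun k => isAlgebraic_algebraMap k) M hM hr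
    {z | IsAlgebraic ℚ (Complex.exp z)} hE (fun z hz => Lt_log hz) ?_ c hc hcM
  intro n l h1 hl c hc h0
  exact baker_hom n l h1 hl c hc h0

/-- irrational multiples -/
theorem main_irr (M : Matrix (Fin 4) (Fin 4) ℂ) (hM : M.transpose = -M) (hr : M.rank ≤ 2)
    (hE : ∀ i j, IsAlgebraic ℚ (Complex.exp (M i j))) (c : ℂ) (hc : ∀ q : ℚ, c ≠ q)
    (hcM : ∀ i j, IsAlgebraic ℚ (Complex.exp (c * M i j))) : Roy ℚ M := by
  by_cases hca : IsAlgebraic ℚ c
  · left
    intro hli
    refine hli.ne_zero 0 ?_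
    funext j
    by_contra h0
    have h0' : M 0 j ≠ 0 := h0
    have hli2 : LinearIndependent ℚ ![M 0 j, c * M 0 j] := by
      rw [LinearIndependent.pair_iff]
      intro s t hst
      rw [Rat.smul_def, Rat.smul_def] at hst
      have h1 : ((s : ℂ) + t * c) = 0 := by
        have : ((s : ℂ) + t * c) * M 0 j = 0 := by linear_combination hst
        exact (mul_eq_zero.1 this).resolve_right h0'
      have ht : t = 0 := by
        by_contra ht
        have ht' : (t : ℂ) ≠ 0 := by exact_mod_cast ht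
        apply hc (-s / t)
        push_cast
        field_simp
        linear_combination h1
      refine ⟨?_, ht⟩
      rw [ht] at h1
      simpa using h1
    have h2 := baker_hom 2 ![M 0 j, c * M 0 j] (by
      intro k
      fin_cases k
      · exact hE 0 j
      · exact hcM 0 j) hli2 ![-c, 1] (by
      intro k
      fin_cases k
      · exact hca.neg
      · exact isAlgebraic_one) (by
      rw [Fin.sum_univ_two]
      simp) 1
    exact one_ne_zero h2
  · exact main_rat M hM hr hE c hca fun i j => Lt_log (hcM i j)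

end Pool.Agent.K1H90.RY
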